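import Pool.Agent.H556R4.Dob

/-!
# Covariance bounds from conditional comparison
-/

set_option autoImplicit false
set_option linter.unusedSectionVars false

noncomputable section

namespace Pool.Agent.V11262.ER

open MeasureTheory Measure Function
open Pool.Agent.H556R4.Dob

variable {ι G : Type} [Fintype ι] [DecidableEq ι] [MeasurableSpace G]
  (μ : Measure G) [IsProbabilityMeasure μ]

lemma measurable_merge_pair (S : Finset ι) :
    Measurable fun p : (ι → G) × (ι → G) => merge S p.1 p.2 := by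
  refine measurable_pi_lambda _ fun i => ?_
  by_cases h : i ∈ S
  · simp only [merge, h, if_true]
    exact (measurable_pi_apply i).comp measurable_fst
  · simp only [merge, h, if_false]
    exact (measurable_pi_apply i).comp measurable_snd

lemma mp_merge (S : Finset ι) :
    MeasurePreserving (fun p : (ι → G) × (ι → G) => merge S p.1 p.2)
      ((Pm μ).prod (Pm μ)) (Pm μ : Measure (ι → G)) := by
  refine ⟨measurable_merge_pair S, ?_⟩
  refine (Measure.pi_eq fun s hs => ?_).symm
  rw [Measure.map_apply (measurable_merge_pair S) (MeasurableSet.univ_pi hs)]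
  have h : (fun p : (ι → G) × (ι → G) => merge S p.1 p.2) ⁻¹' (Set.univ.pi s)
      = (Set.univ.pi fun i => if i ∈ S then s i else Set.univ) ×ˢ
        (Set.univ.pi fun i => if i ∈ S then Set.univ else s i) := by
    ext p
    simp only [Set.mem_preimage, Set.mem_pi, Set.mem_univ, true_implies, Set.mem_prod]
    constructor
    · intro hp
      refine ⟨fun i => ?_, fun i => ?_⟩
      · have := hp i
        by_cases hi : i ∈ S
        · simpa [merge, hi] using this
        · simp [hi]
      · have := hp i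
        by_cases hi : i ∈ S
        · simp [hi]
        · simpa [merge, hi] using this
    · rintro ⟨h1, h2⟩ i
      by_cases hi : i ∈ S
      · simpa [merge, hi] using h1 i
      · simpa [merge, hi] using h2 i
  rw [h, Measure.prod_prod, Measure.pi_pi, Measure.pi_pi, ← Finset.prod_mul_distrib]
  refine Finset.prod_congr rfl fun i _ => ?_
  by_cases hi : i ∈ S
  · simp [hi]
  · simp [hi]

lemma int_merge (S : Finset ι) {φ : (ι → G) → ℝ} (hφ : BM φ) :
    ∫ U, φ U ∂(Pm μ) = ∫ v, ∫ U, φ (merge S U v) ∂(Pm μ) ∂(Pm μ : Measure (ι → G)) := by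
  have h := mp_merge μ S (ι := ι)
  conv_lhs => rw [← h.map_eq]
  rw [integral_map h.measurable.aemeasurable hφ.meas.aestronglyMeasurable]
  exact integral_prod_symm _ ((hφ.comp h.measurable).integrable _)

lemma bm_int_merge (S : Finset ι) {φ : (ι → G) → ℝ} (hφ : BM φ) :
    BM fun v : ι → G => ∫ U, φ (merge S U v) ∂(Pm μ) := by
  obtain ⟨c, hc⟩ := hφ.bdd
  refine ⟨?_, c, fun v => ?_⟩
  · have h : StronglyMeasurable fun p : (ι → G) × (ι → G) => φ (merge S p.2 p.1) :=
      (hφ.meas.comp ((measurable_merge_pair S).comp measurable_swap)).stronglyMeasurable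
    exact h.integral_prod_right.measurable
  · have := norm_integral_le_of_norm_le_const (μ := (Pm μ : Measure (ι → G)))
      (f := fun U => φ (merge S U v)) (C := c)
      (Filter.Eventually.of_forall fun U => by rw [Real.norm_eq_abs]; exact hc _)
    simpa using this

/-- **Covariance bound.** -/
theorem cov_le {H : (ι → G) → ℝ} (hH : Dens H) (S : Finset ι) {f h : (ι → G) → ℝ} (hf : BM f)
    (hh : BM h) (hhS : ∀ U v, h (merge S U v) = h v) {c : ℝ}
    (hc : ∀ v v', |I μ S H v f / Z μ S H v - I μ S H v' f / Z μ S H v'| ≤ c) :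
    |(∫ U, f U * h U * H U ∂(Pm μ)) * (∫ U, H U ∂(Pm μ))
      - (∫ U, f U * H U ∂(Pm μ)) * (∫ U, h U * H U ∂(Pm μ))|
      ≤ c * ((∫ U, |h U| * H U ∂(Pm μ)) * ∫ U, H U ∂(Pm μ)) := by
  have hHb := hH.bm
  set ZZ : (ι → G) → ℝ := fun v => Z μ S H v with hZZ
  set II : (ι → G) → ℝ := fun v => I μ S H v f with hII
  have hZb : BM ZZ := bm_int_merge μ S hHb
  have hIb : BM II := bm_int_merge μ S (hf.mul hHb)
  have hZp : ∀ v, 0 < ZZ v := fun v => Z_pos μ hH S v
  have habs : BM fun U => |h U| := ⟨hh.meas.abs, by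
    obtain ⟨b, hb⟩ := hh.bdd
    exact ⟨b, fun U => by rw [abs_abs]; exact hb U⟩⟩
  have e1 : ∫ U, f U * h U * H U ∂(Pm μ) = ∫ v, h v * II v ∂(Pm μ) := by
    rw [int_merge μ S ((hf.mul hh).mul hHb)]
    refine integral_congr_ae (Filter.Eventually.of_forall fun v => ?_)
    simp only [hhS]
    rw [hII]
    simp only [I]
    rw [← integral_const_mul]
    refine integral_congr_ae (Filter.Eventually.of_forall fun U => ?_)
    simp only
    ring
  have e2 : ∫ U, f U * H U ∂(Pm μ) = ∫ v, II v ∂(Pm μ) := int_merge μ S (hf.mul hHb)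
  have e3 : ∫ U, H U ∂(Pm μ) = ∫ v, ZZ v ∂(Pm μ) := int_merge μ S hHb
  have e4 : ∫ U, h U * H U ∂(Pm μ) = ∫ v, h v * ZZ v ∂(Pm μ) := by
    rw [int_merge μ S (hh.mul hHb)]
    refine integral_congr_ae (Filter.Eventually.of_forall fun v => ?_)
    simp only [hhS]
    rw [integral_const_mul]
    rfl
  have e5 : ∫ U, |h U| * H U ∂(Pm μ) = ∫ v, |h v| * ZZ v ∂(Pm μ) := by
    rw [int_merge μ S (habs.mul hHb)]
    refine integral_congr_ae (Filter.Eventually.of_forall fun v => ?_)
    simp only [hhS]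
    rw [integral_const_mul]
    rfl
  rw [e1, e2, e3, e4, e5, ← integral_prod_mul, ← integral_prod_mul, ← integral_prod_mul,
    ← integral_const_mul]
  have b1 : BM fun p : (ι → G) × (ι → G) => (h p.1 * II p.1) * ZZ p.2 :=
    BM.mul ((hh.mul hIb).comp measurable_fst) (hZb.comp measurable_snd)
  have b2 : BM fun p : (ι → G) × (ι → G) => II p.1 * (h p.2 * ZZ p.2) :=
    BM.mul (hIb.comp measurable_fst) ((hh.mul hZb).comp measurable_snd)
  have b2' : BM fun p : (ι → G) × (ι → G) => II p.2 * (h p.1 * ZZ p.1) :=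
    BM.mul (hIb.comp measurable_snd) ((hh.mul hZb).comp measurable_fst)
  have b3 : BM fun p : (ι → G) × (ι → G) => (|h p.1| * ZZ p.1) * ZZ p.2 :=
    BM.mul ((habs.mul hZb).comp measurable_fst) (hZb.comp measurable_snd)
  have sw : ∫ p : (ι → G) × (ι → G), II p.1 * (h p.2 * ZZ p.2) ∂((Pm μ).prod (Pm μ))
      = ∫ p : (ι → G) × (ι → G), II p.2 * (h p.1 * ZZ p.1) ∂((Pm μ).prod (Pm μ)) := by
    rw [← integral_prod_swap]
    rfl
  rw [sw, ← integral_sub (b1.integrable _) (b2'.integrable _)]
  refine abs_integral_le_integral_abs.trans ?_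
  refine integral_mono ((b1.integrable _).sub (b2'.integrable _)).abs
    ((b3.integrable _).const_mul c) fun p => ?_
  simp only
  have e6 : h p.1 * II p.1 * ZZ p.2 - II p.2 * (h p.1 * ZZ p.1)
      = (II p.1 / ZZ p.1 - II p.2 / ZZ p.2) * (h p.1 * ZZ p.1 * ZZ p.2) := by
    have h1 := (hZp p.1).ne'
    have h2 := (hZp p.2).ne'
    field_simp
  rw [e6, abs_mul, abs_mul, abs_mul, abs_of_pos (hZp p.1), abs_of_pos (hZp p.2)]
  exact mul_le_mul_of_nonneg_right (hc _ _) (by
    have := abs_nonneg (h p.1)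
    have := hZp p.1
    have := hZp p.2
    positivity)

end Pool.Agent.V11262.ER
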