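import Pool.Agent.V11262.ER.Infl
import Pool.Agent.V11262.ER.Cov

/-!
# Exponential clustering in finite volume
-/

set_option autoImplicit false
set_option linter.unusedSectionVars false

noncomputable section

namespace Pool.Agent.V11262.ER

open MeasureTheory Measure Function Quaternion
open Pool.Agent.H556R4.Dob Pool.Agent.H556R4.SU2

/-- `F` is Lipschitz in the links of `A` with constant `K` -/
def Lip (K : ℝ) (A : Finset Link) (F : (Link → S3) → ℝ) : Prop :=
  ∀ U V : Link → S3, |F U - F V| ≤ K * ∑ e ∈ A, ‖(U e : ℍ[ℝ]) - V e‖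

lemma Lip.dep {K : ℝ} {A : Finset Link} {F : (Link → S3) → ℝ} (h : Lip K A F) : Dep A F := by
  intro U V hUV
  have h1 := h U V
  have h2 : ∑ e ∈ A, ‖(U e : ℍ[ℝ]) - V e‖ = 0 :=
    Finset.sum_eq_zero fun e he => by rw [hUV e he, sub_self, norm_zero]
  rw [h2, mul_zero] at h1
  have := abs_nonneg (F U - F V)
  exact sub_eq_zero.1 (abs_eq_zero.1 (le_antisymm h1 this))

lemma Dep.mono {L L' : Finset Link} (h : L ⊆ L') {Φ : (Link → S3) → ℝ} (hd : Dep L Φ) : Dep L' Φ :=
  fun U V hUV => hd U V fun e he => hUV e (h he)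

lemma Lip.bdd {K : ℝ} (hK : 0 ≤ K) {A : Finset Link} {F : (Link → S3) → ℝ} (h : Lip K A F)
    (U : Link → S3) : |F U| ≤ |F 1| + K * (A.card * 2) := by
  have h1 := h U 1
  have h2 : ∑ e ∈ A, ‖(U e : ℍ[ℝ]) - (1 : Link → S3) e‖ ≤ A.card * 2 := by
    rw [← nsmul_eq_mul]
    refine Finset.sum_le_card_nsmul _ _ _ fun e _ => ?_
    refine (norm_sub_le _ _).trans ?_
    rw [norm_coe', norm_coe']; norm_num
  have h3 := mul_le_mul_of_nonneg_left h2 hK
  have h4 : |F U| ≤ |F U - F 1| + |F 1| := by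
    have := abs_add_le (F U - F 1) (F 1)
    rwa [sub_add_cancel] at this
  linarith

lemma Lip.cont {K : ℝ} {A : Finset Link} {F : (Link → S3) → ℝ} (h : Lip K A F) : Continuous F := by
  rw [continuous_iff_continuousAt]
  intro U
  rw [ContinuousAt, tendsto_iff_dist_tendsto_zero]
  have h1 : Continuous fun V : Link → S3 => K * ∑ e ∈ A, ‖(V e : ℍ[ℝ]) - U e‖ := by
    refine continuous_const.mul (continuous_finsetSum _ fun e _ => ?_)
    exact ((continuous_subtype_val.comp (continuous_apply e)).sub continuous_const).norm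
  have h2 := h1.tendsto U
  have h3 : K * ∑ e ∈ A, ‖(U e : ℍ[ℝ]) - U e‖ = 0 := by simp
  rw [h3] at h2
  exact squeeze_zero (fun _ => dist_nonneg) (fun V => by rw [Real.dist_eq]; exact h V U) h2

/-- the standing properties of an integrand -/
structure Good [MeasurableSpace S3] (L : Finset Link) (Φ : (Link → S3) → ℝ) : Prop where
  meas : Measurable Φ
  bdd : ∃ C, ∀ U, |Φ U| ≤ C
  dep : Dep L Φ
  inv : Inv Φ

section

variable [MeasurableSpace S3]

lemma Good.mul {L : Finset Link} {Φ Ψ : (Link → S3) → ℝ} (h1 : Good L Φ) (h2 : Good L Ψ) :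
    Good L fun U => Φ U * Ψ U := by
  obtain ⟨c, hc⟩ := h1.bdd
  obtain ⟨d, hd⟩ := h2.bdd
  refine ⟨h1.meas.mul h2.meas, ⟨c * d, fun U => ?_⟩, fun U V hUV => ?_, fun γ U => ?_⟩
  · rw [abs_mul]
    exact mul_le_mul (hc U) (hd U) (abs_nonneg _) ((abs_nonneg _).trans (hc U))
  · show Φ U * Ψ U = Φ V * Ψ V
    rw [h1.dep U V hUV, h2.dep U V hUV]
  · show Φ (gau γ U) * Ψ (gau γ U) = Φ U * Ψ U
    rw [h1.inv, h2.inv]

lemma Good.abs {L : Finset Link} {Φ : (Link → S3) → ℝ} (h1 : Good L Φ) :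
    Good L fun U => |Φ U| := by
  obtain ⟨c, hc⟩ := h1.bdd
  refine ⟨h1.meas.abs, ⟨c, fun U => by rw [abs_abs]; exact hc U⟩, fun U V hUV => ?_, fun γ U => ?_⟩
  · show |Φ U| = |Φ V|
    rw [h1.dep U V hUV]
  · show |Φ (gau γ U)| = |Φ U|
    rw [h1.inv]

lemma Good.mono {L L' : Finset Link} (h : L ⊆ L') {Φ : (Link → S3) → ℝ} (h1 : Good L Φ) :
    Good L' Φ := ⟨h1.meas, h1.bdd, h1.dep.mono h, h1.inv⟩

variable [BorelSpace S3]

lemma abs_re_le (g : S3) : |(g : ℍ[ℝ]).re| ≤ 1 := by
  have h := re_sq_le g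
  rw [abs_le]
  constructor <;> nlinarith

lemma continuous_plq (p : Plaq) : Continuous fun U : Link → S3 => (plq U p : S3) := by
  have h : ∀ e : Link, Continuous fun U : Link → S3 => U e := fun e => continuous_apply e
  exact (((h _).mul (h _)).mul (h _).inv).mul (h _).inv

lemma measurable_plq (p : Plaq) : Measurable fun U : Link → S3 => (plq U p : S3) :=
  (continuous_plq p).measurable

lemma measurable_re : Measurable fun g : S3 => (g : ℍ[ℝ]).re :=
  measurable_comp_re Quaternion.continuous_re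

lemma wt_bds (β : Plaq → ℝ) (Λ : Finset Plaq) (U : Link → S3) :
    Real.exp (-∑ p ∈ Λ, |β p|) ≤ wt β Λ U ∧ wt β Λ U ≤ Real.exp (∑ p ∈ Λ, |β p|) := by
  have h : |∑ p ∈ Λ, β p * ((plq U p : S3) : ℍ[ℝ]).re| ≤ ∑ p ∈ Λ, |β p| := by
    refine (Finset.abs_sum_le_sum_abs _ _).trans (Finset.sum_le_sum fun p _ => ?_)
    rw [abs_mul]
    exact mul_le_of_le_one_right (abs_nonneg _) (abs_re_le _)
  rw [abs_le] at h
  unfold wt
  exact ⟨Real.exp_le_exp.2 h.1, Real.exp_le_exp.2 h.2⟩

lemma wt_pos (β : Plaq → ℝ) (Λ : Finset Plaq) (U : Link → S3) : 0 < wt β Λ U := Real.exp_pos _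

lemma wt_good (β : Plaq → ℝ) (Λ : Finset Plaq) : Good (Λ.biUnion lk) (wt β Λ) := by
  refine ⟨?_, ⟨Real.exp (∑ p ∈ Λ, |β p|), fun U => ?_⟩, fun U V hUV => ?_, fun γ U => ?_⟩
  · unfold wt
    refine Real.measurable_exp.comp (Finset.measurable_fun_sum _ fun p _ => ?_)
    exact (measurable_re.comp (measurable_plq p)).const_mul _
  · rw [abs_of_pos (wt_pos β Λ U)]
    exact (wt_bds β Λ U).2
  · unfold wt
    congr 1
    refine Finset.sum_congr rfl fun p hp => ?_
    have hm : ∀ e ∈ lk p, U e = V e := fun e he => hUV e (Finset.mem_biUnion.2 ⟨p, hp, he⟩)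
    unfold plq
    rw [hm _ (mem_lk.2 (Or.inl rfl)), hm _ (mem_lk.2 (Or.inr (Or.inl rfl))),
      hm _ (mem_lk.2 (Or.inr (Or.inr (Or.inl rfl)))),
      hm _ (mem_lk.2 (Or.inr (Or.inr (Or.inr rfl))))]
  · unfold wt
    congr 1
    refine Finset.sum_congr rfl fun p hp => ?_
    rw [plq_gau, coe_conj, re_conj]

lemma Lip.good {K : ℝ} (hK : 0 ≤ K) {A : Finset Link} {F : (Link → S3) → ℝ} (h : Lip K A F)
    (hi : Inv F) : Good A F :=
  ⟨h.cont.measurable, ⟨_, h.bdd hK⟩, h.dep, hi⟩

lemma measurable_gf (L : Finset Link) : Measurable (gf L) := by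
  rw [measurable_pi_iff]
  intro e
  by_cases h : Fx e
  · have : (fun u : L → S3 => gf L u e) = fun _ => 1 := by
      funext u
      exact gf_fixed u h
    rw [this]
    exact measurable_const
  · by_cases hel : e ∈ L
    · have : (fun u : L → S3 => gf L u e) = fun u => u ⟨e, hel⟩ := by
        funext u
        exact gf_unfixed u ⟨e, hel⟩ h
      rw [this]
      exact measurable_pi_apply _
    · have : (fun u : L → S3 => gf L u e) = fun _ => 1 := by
        funext u
        exact gf_out u hel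
      rw [this]
      exact measurable_const

lemma HH_dens (L : Finset Link) (β : Plaq → ℝ) (Λ : Finset Plaq) : Dens (HH L β Λ) :=
  ⟨(wt_good β Λ).meas.comp (measurable_gf L), ⟨_, Real.exp_pos _, fun u => (wt_bds β Λ _).1⟩,
    ⟨_, fun u => (wt_bds β Λ _).2⟩⟩

lemma Good.bm {L L' : Finset Link} {Φ : (Link → S3) → ℝ} (h : Good L' Φ) :
    BM fun u : L → S3 => Φ (gf L u) :=
  ⟨h.meas.comp (measurable_gf L), by
    obtain ⟨c, hc⟩ := h.bdd
    exact ⟨c, fun u => hc _⟩⟩

end

/-! ## geometry -/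

lemma base_bds {p : Plaq} {e : Link} (he : e ∈ lk p) (k : Fin 4) :
    p.1.1 k ≤ e.1 k ∧ e.1 k ≤ p.1.1 k + 1 := by
  have key : ∀ i : Fin 4, p.1.1 k ≤ (p.1.1 + un i) k ∧ (p.1.1 + un i) k ≤ p.1.1 k + 1 := by
    intro i
    rw [Pi.add_apply]
    unfold un
    by_cases h : k = i
    · subst h; rw [Pi.single_eq_same]; omega
    · rw [Pi.single_eq_of_ne h]; omega
  rcases mem_lk.1 he with h | h | h | h
  · rw [h]; exact ⟨le_rfl, by show p.1.1 k ≤ _; omega⟩
  · rw [h]; exact key _
  · rw [h]; exact key _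
  · rw [h]; exact ⟨le_rfl, by show p.1.1 k ≤ _; omega⟩

lemma dist_lk {p : Plaq} {e f : Link} (he : e ∈ lk p) (hf : f ∈ lk p) : dist e.1 f.1 ≤ 1 := by
  rw [dist_pi_le_iff zero_le_one]
  intro k
  have h1 := base_bds he k
  have h2 := base_bds hf k
  rw [Int.dist_eq]
  have h3 : |e.1 k - f.1 k| ≤ 1 := by
    rw [abs_le]; constructor <;> omega
  exact_mod_cast h3

lemma exists_r (A B : Finset Link) (D : ℕ) (h : ∀ e ∈ A, ∀ f ∈ B, (D : ℝ) ≤ dist e.1 f.1) :
    ∃ r : Site → ℝ, (∀ x y, r y ≤ r x + dist x y) ∧ (∀ f ∈ B, (D : ℝ) ≤ r f.1) ∧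
      ∀ e ∈ A, r e.1 = 0 := by
  by_cases hA : A.Nonempty
  · have hne : ((A.image Prod.fst : Finset Site) : Set Site).Nonempty := by
      obtain ⟨e, he⟩ := hA
      exact ⟨e.1, Finset.mem_coe.2 (Finset.mem_image_of_mem _ he)⟩
    refine ⟨fun x => Metric.infDist x (A.image Prod.fst : Finset Site), fun x y => ?_,
      fun f hf => ?_, fun e he => ?_⟩
    · have := Metric.infDist_le_infDist_add_dist (s := ((A.image Prod.fst : Finset Site) : Set Site))
        (x := y) (y := x)
      rwa [dist_comm] at this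
    · refine (Metric.le_infDist hne).2 fun y hy => ?_
      rw [Finset.mem_coe, Finset.mem_image] at hy
      obtain ⟨e, he, rfl⟩ := hy
      rw [dist_comm]
      exact h e he f hf
    · exact Metric.infDist_zero_of_mem (Finset.mem_coe.2 (Finset.mem_image_of_mem _ he))
  · rw [Finset.not_nonempty_iff_eq_empty] at hA
    subst hA
    exact ⟨fun _ => D, fun x y => by linarith [dist_nonneg (x := x) (y := y)], fun f _ => le_rfl,
      fun e he => absurd he (Finset.notMem_empty e)⟩

/-! ## comparison -/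

section

variable [MeasurableSpace S3] [BorelSpace S3] (μ : Measure S3) [IsProbabilityMeasure μ]
  [μ.IsHaarMeasure]

lemma osc_gf {K : ℝ} (hK : 0 ≤ K) {A : Finset Link} {F : (Link → S3) → ℝ} (h : Lip K A F)
    (L : Finset Link) :
    Osc chord (fun u : L → S3 => F (gf L u)) fun y => if y.1 ∈ A then K else 0 := by
  refine ⟨fun y => by dsimp only; split_ifs <;> linarith, fun y u g => ?_⟩
  simp only
  refine (h _ _).trans ?_
  by_cases hy : Fx y.1
  · rw [gf_update_fixed u y g hy]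
    simp only [sub_self, norm_zero, Finset.sum_const_zero, mul_zero]
    have : 0 ≤ chord g (u y) := norm_nonneg _
    split_ifs <;> positivity
  · rw [gf_update_unfixed u y g hy]
    have e1 : ∑ e ∈ A, ‖(update (gf L u) y.1 g e : ℍ[ℝ]) - gf L u e‖
        = if y.1 ∈ A then chord g (u y) else 0 := by
      by_cases hA : y.1 ∈ A
      · rw [if_pos hA, Finset.sum_eq_single y.1]
        · rw [update_self, gf_unfixed u y hy]; rfl
        · intro e _ hne
          rw [update_of_ne hne, sub_self, norm_zero]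
        · exact fun h => absurd hA h
      · rw [if_neg hA]
        refine Finset.sum_eq_zero fun e he => ?_
        have hne : e ≠ y.1 := fun h => hA (by rw [← h]; exact he)
        rw [update_of_ne hne, sub_self, norm_zero]
    rw [e1]
    split_ifs <;> simp

theorem compare {s : ℝ} (hs0 : 0 < s) (hs : s < Real.sqrt 3) (β : Plaq → ℝ) (Λ : Finset Plaq)
    (hβ : ∀ e : Link, ∑ p ∈ Λ.filter (fun p => e ∈ lk p), |β p| ≤ s) (A B L : Finset Link)
    (D : ℕ) (hAB : ∀ e ∈ A, ∀ f ∈ B, (D : ℝ) ≤ dist e.1 f.1) {K : ℝ} (hK : 0 ≤ K)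
    {F : (Link → S3) → ℝ} (hF : Lip K A F) (hi : Inv F) (v v' : L → S3) :
    |I μ (Finset.univ.filter fun y : L => y.1 ∉ B) (HH L β Λ) v (fun u => F (gf L u))
        / Z μ (Finset.univ.filter fun y : L => y.1 ∉ B) (HH L β Λ) v
      - I μ (Finset.univ.filter fun y : L => y.1 ∉ B) (HH L β Λ) v' (fun u => F (gf L u))
        / Z μ (Finset.univ.filter fun y : L => y.1 ∉ B) (HH L β Λ) v'|
      ≤ 2 * K * A.card * (s / Real.sqrt 3) ^ D := by
  set S : Finset L := Finset.univ.filter fun y : L => y.1 ∉ B with hS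
  have hsq : Real.sqrt 3 ^ 2 = 3 := Real.sq_sqrt (by norm_num)
  have h3 : 0 < Real.sqrt 3 := Real.sqrt_pos.2 (by norm_num)
  obtain ⟨r, hr1, hr2, hr3⟩ := exists_r A B D hAB
  set m : ℝ := Real.log (Real.sqrt 3 / s) with hm
  have hm0 : 0 < m := Real.log_pos (by rw [one_lt_div hs0]; exact hs)
  have hem : Real.exp m = Real.sqrt 3 / s := Real.exp_log (by positivity)
  set w : Link → ℝ := fun e => 2 * Real.exp (m * (min (r e.1) D - D)) with hw
  have hwpos : ∀ e, 0 < w e := fun e => by rw [hw]; positivity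
  have key : P μ chord S (HH L β Λ) v v' (fun y => w y.1) := by
    refine comparison μ (HH_dens L β Λ) (C := fun x y => Real.sqrt 3 / 6 * cpl β Λ x.1 y.1)
      (ρ := s / Real.sqrt 3) (fun y => (hwpos _).le) zero_le_two chord_cost (fun y hy => ?_)
      (fun x _ y hyx => HH_infl μ L β Λ x y hyx) (fun x y => ?_) (by positivity) ?_
      (fun x hx => ?_) (fun x hx => ?_)
    · have hyB : y.1 ∈ B := by
        by_contra h
        exact hy (Finset.mem_filter.2 ⟨Finset.mem_univ _, h⟩)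
      have h1 : min (r y.1.1) (D : ℝ) = D := min_eq_right (hr2 _ hyB)
      show chord _ _ ≤ 2 * Real.exp (m * (min (r y.1.1) D - D))
      rw [h1, sub_self, mul_zero, Real.exp_zero, mul_one]
      exact chord_cost.le _ _
    · have := cpl_nonneg β Λ x.1 y.1
      positivity
    · rw [div_lt_one h3]; exact hs
    · have h1 := row β Λ L x (Finset.univ.erase x) w (Real.exp m * w x.1)
        (by have := hwpos x.1; positivity) (fun p _ hxp y hyp => ?_) (hβ x.1)
        (Finset.notMem_erase _ _)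
      · have h2 : ∑ y ∈ Finset.univ.erase x, Real.sqrt 3 / 6 * cpl β Λ x.1 y.1 * w y.1
            = Real.sqrt 3 / 6 * ∑ y ∈ Finset.univ.erase x, cpl β Λ x.1 y.1 * w y.1 := by
          rw [Finset.mul_sum]
          exact Finset.sum_congr rfl fun y _ => by ring
        rw [h2]
        refine (mul_le_mul_of_nonneg_left h1 (by positivity)).trans (le_of_eq ?_)
        rw [hem]
        field_simp
        rw [hsq]
        ring
      · rw [hw]
        simp only
        have h5 := hr1 x.1.1 y.1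
        have h6 := dist_lk hxp hyp
        have h7 : min (r y.1) (D : ℝ) ≤ min (r x.1.1) D + 1 := by
          rcases le_total (r x.1.1) (D : ℝ) with h | h
          · rw [min_eq_left h]
            exact (min_le_left _ _).trans (by linarith)
          · rw [min_eq_right h]
            exact (min_le_right _ _).trans (by linarith)
        have h8 : Real.exp (m * (min (r y.1) D - D))
            ≤ Real.exp m * Real.exp (m * (min (r x.1.1) D - D)) := by
          rw [← Real.exp_add]
          refine Real.exp_le_exp.2 ?_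
          nlinarith
        linarith
    · have h1 := row β Λ L x (S.erase x) (fun _ => 1) 1 zero_le_one
        (fun p _ _ y _ => le_rfl) (hβ x.1) (Finset.notMem_erase _ _)
      have h2 : ∑ y ∈ S.erase x, Real.sqrt 3 / 6 * cpl β Λ x.1 y.1
          = Real.sqrt 3 / 6 * ∑ y ∈ S.erase x, cpl β Λ x.1 y.1 * 1 := by
        rw [Finset.mul_sum]
        exact Finset.sum_congr rfl fun y _ => by ring
      rw [h2]
      refine (mul_le_mul_of_nonneg_left h1 (by positivity)).trans (le_of_eq ?_)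
      field_simp
      nlinarith [hsq]
  have h1 := key _ _ ((hF.good hK hi).bm (L := L)) (osc_gf hK hF L)
  refine h1.trans ?_
  have h2 : ∀ y : L, w y.1 * (if y.1 ∈ A then K else 0)
      = if y.1 ∈ A then 2 * K * (s / Real.sqrt 3) ^ D else 0 := by
    intro y
    by_cases hy : y.1 ∈ A
    · rw [if_pos hy, if_pos hy]
      have h4 : w y.1 = 2 * (s / Real.sqrt 3) ^ D := by
        rw [hw]
        simp only
        have h9 : m * (0 - (D : ℝ)) = -((D : ℝ) * m) := by ring
        rw [hr3 _ hy, min_eq_left (by positivity : (0 : ℝ) ≤ D), h9, Real.exp_neg,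
          Real.exp_nat_mul, hem, ← inv_pow, inv_div]
      rw [h4]; ring
    · rw [if_neg hy, if_neg hy, mul_zero]
  rw [Finset.sum_congr rfl fun y _ => h2 y, ← Finset.sum_filter, Finset.sum_const, nsmul_eq_mul]
  have h5 : ((Finset.univ.filter fun y : L => y.1 ∈ A).card : ℝ) ≤ A.card := by
    have h6 : ((Finset.univ.filter fun y : L => y.1 ∈ A).map (Embedding.subtype _)) ⊆ A := by
      intro z hz
      rw [Finset.mem_map] at hz
      obtain ⟨y, hy, rfl⟩ := hz
      exact (Finset.mem_filter.1 hy).2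
    have h7 := Finset.card_le_card h6
    rw [Finset.card_map] at h7
    exact_mod_cast h7
  have h8 : 0 ≤ 2 * K * (s / Real.sqrt 3) ^ D := by positivity
  have := mul_le_mul_of_nonneg_right h5 h8
  linarith

/-- the product Haar measure -/
def hm : Measure (Link → S3) := infinitePi fun _ => μ

/-- **Clustering in finite volume.** -/
theorem fv {s : ℝ} (hs0 : 0 < s) (hs : s < Real.sqrt 3) (β : Plaq → ℝ) (Λ : Finset Plaq)
    (hβ : ∀ e : Link, ∑ p ∈ Λ.filter (fun p => e ∈ lk p), |β p| ≤ s) (A B : Finset Link)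
    (D : ℕ) (hAB : ∀ e ∈ A, ∀ f ∈ B, (D : ℝ) ≤ dist e.1 f.1) {K : ℝ} (hK : 0 ≤ K)
    {F h : (Link → S3) → ℝ} (hF : Lip K A F) (hi : Inv F) (hh : Good B h) :
    |(∫ U, F U * h U * wt β Λ U ∂(hm μ)) * (∫ U, wt β Λ U ∂(hm μ))
      - (∫ U, F U * wt β Λ U ∂(hm μ)) * (∫ U, h U * wt β Λ U ∂(hm μ))|
      ≤ 2 * K * A.card * (s / Real.sqrt 3) ^ D
        * ((∫ U, |h U| * wt β Λ U ∂(hm μ)) * ∫ U, wt β Λ U ∂(hm μ)) := by
  have := right_inv μ
  set L : Finset Link := A ∪ B ∪ Λ.biUnion lk with hL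
  have gF : Good L F := (hF.good hK hi).mono (by
    rw [hL, Finset.union_assoc]; exact Finset.subset_union_left)
  have gh : Good L h := hh.mono (by
    rw [hL]; exact Finset.subset_union_right.trans Finset.subset_union_left)
  have gW : Good L (wt β Λ) := (wt_good β Λ).mono Finset.subset_union_right
  have conv : ∀ Φ : (Link → S3) → ℝ, Good L Φ →
      ∫ U, Φ U ∂(hm μ) = ∫ u, Φ (gf L u) ∂(Pm μ : Measure (L → S3)) := by
    intro Φ hΦ
    obtain ⟨C, hC⟩ := hΦ.bdd
    exact gauge_fix μ DD L Φ hΦ.meas hC hΦ.dep hΦ.inv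
  rw [conv _ ((gF.mul gh).mul gW), conv _ gW, conv _ (gF.mul gW), conv _ (gh.mul gW),
    conv _ (gh.abs.mul gW)]
  refine cov_le μ (HH_dens L β Λ) (Finset.univ.filter fun y : L => y.1 ∉ B) gF.bm gh.bm
    (fun U v => ?_) fun v v' => compare μ hs0 hs β Λ hβ A B L D hAB hK hF hi v v'
  refine hh.dep _ _ fun e he => ?_
  by_cases hf : Fx e
  · rw [gf_fixed _ hf, gf_fixed _ hf]
  · have heL : e ∈ L := by
      rw [hL]; exact Finset.mem_union_left _ (Finset.mem_union_right _ he)
    rw [gf_unfixed _ ⟨e, heL⟩ hf, gf_unfixed _ ⟨e, heL⟩ hf]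
    unfold merge
    rw [if_neg]
    intro h'
    exact (Finset.mem_filter.1 h').2 he

end

end Pool.Agent.V11262.ER
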