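import Pool.Agent.V11262.ER.Gauge

/-!
# Wilson weights for unit quaternions in the gauge with a trivial link in every plaquette
-/

set_option autoImplicit false
set_option linter.unusedSectionVars false

noncomputable section

namespace Pool.Agent.V11262.ER

open MeasureTheory Measure Function Quaternion
open Pool.Agent.H556R4.Dob Pool.Agent.H556R4.SU2

/-! ## links of a plaquette -/

lemma un_ne {i j : Fin 4} (h : i ≠ j) : un i ≠ un j := by
  intro h1
  have := congrFun h1 i
  simp [un, h] at this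

lemma l12 (p : Plaq) : l1 p ≠ l2 p := fun h => (ne_of_lt p.2) (congrArg Prod.snd h)
lemma l13 (p : Plaq) : l1 p ≠ l3 p := fun h => add_un_ne _ _ (congrArg Prod.fst h).symm
lemma l14 (p : Plaq) : l1 p ≠ l4 p := fun h => (ne_of_lt p.2) (congrArg Prod.snd h)
lemma l23 (p : Plaq) : l2 p ≠ l3 p := fun h => (ne_of_lt p.2) (congrArg Prod.snd h).symm
lemma l24 (p : Plaq) : l2 p ≠ l4 p := fun h => add_un_ne _ _ (congrArg Prod.fst h)
lemma l34 (p : Plaq) : l3 p ≠ l4 p := fun h => (ne_of_lt p.2) (congrArg Prod.snd h)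

lemma mem_lk {p : Plaq} {e : Link} : e ∈ lk p ↔ e = l1 p ∨ e = l2 p ∨ e = l3 p ∨ e = l4 p := by
  unfold lk; simp

lemma card_lk (p : Plaq) : (lk p).card ≤ 4 := Finset.card_le_four

/-! ## quaternion estimates -/

lemma nsub_inv (a b : S3) : ‖((a⁻¹ : S3) : ℍ[ℝ]) - ((b⁻¹ : S3) : ℍ[ℝ])‖ = ‖(a : ℍ[ℝ]) - b‖ := by
  rw [coe_inv, coe_inv, ← star_sub, Quaternion.norm_star]

lemma nsub_mul (a b c d : S3) :
    ‖((a * b : S3) : ℍ[ℝ]) - ((c * d : S3) : ℍ[ℝ])‖ ≤ ‖(a : ℍ[ℝ]) - c‖ + ‖(b : ℍ[ℝ]) - d‖ := by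
  have e : ((a * b : S3) : ℍ[ℝ]) - ((c * d : S3) : ℍ[ℝ])
      = ((a : ℍ[ℝ]) - c) * b + c * ((b : ℍ[ℝ]) - d) := by
    push_cast
    noncomm_ring
  rw [e]
  refine (norm_add_le _ _).trans ?_
  rw [norm_mul, norm_mul, norm_coe', norm_coe', mul_one, one_mul]

lemma re_inner (a b : S3) : ((a * b : S3) : ℍ[ℝ]).re = inner ℝ (a : ℍ[ℝ]) ((b⁻¹ : S3) : ℍ[ℝ]) := by
  rw [inner_def, coe_inv, star_star]
  rfl

lemma re_comm (a b : S3) : ((a * b : S3) : ℍ[ℝ]).re = ((b * a : S3) : ℍ[ℝ]).re :=
  re_cyc _ _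

lemma inner_inv (a b : S3) : inner ℝ ((a⁻¹ : S3) : ℍ[ℝ]) ((b⁻¹ : S3) : ℍ[ℝ]) = inner ℝ (a : ℍ[ℝ]) (b : ℍ[ℝ]) := by
  rw [inner_def, inner_def, coe_inv, coe_inv, star_star, re_cyc, ← Quaternion.re_star]
  simp

/-! ## staples -/

/-- staple -/
def stg (p : Plaq) (e : Link) (U : Link → S3) : S3 :=
  if e = l1 p then U (l4 p) * U (l3 p) * (U (l2 p))⁻¹
  else if e = l2 p then (U (l1 p))⁻¹ * U (l4 p) * U (l3 p)
  else if e = l3 p then (U (l4 p))⁻¹ * U (l1 p) * U (l2 p)
  else U (l1 p) * U (l2 p) * (U (l3 p))⁻¹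

lemma stg_plq {p : Plaq} {e : Link} (he : e ∈ lk p) (U : Link → S3) (g : S3) :
    ((plq (update U e g) p : S3) : ℍ[ℝ]).re = inner ℝ ((stg p e U : S3) : ℍ[ℝ]) (g : ℍ[ℝ]) := by
  rcases mem_lk.1 he with h | h | h | h
  · subst h
    have e1 : plq (update U (l1 p) g) p = g * (U (l4 p) * U (l3 p) * (U (l2 p))⁻¹)⁻¹ := by
      unfold plq
      rw [update_self, update_of_ne (l12 p).symm, update_of_ne (l13 p).symm,
        update_of_ne (l14 p).symm]
      group
    rw [e1, re_inner, inv_inv, real_inner_comm]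
    unfold stg
    rw [if_pos rfl]
  · subst h
    have e1 : plq (update U (l2 p) g) p
        = U (l1 p) * (g * ((U (l4 p) * U (l3 p))⁻¹)) := by
      unfold plq
      rw [update_self, update_of_ne (l12 p), update_of_ne (l23 p).symm,
        update_of_ne (l24 p).symm]
      group
    have e2 : g * ((U (l4 p) * U (l3 p))⁻¹) * U (l1 p)
        = g * ((U (l1 p))⁻¹ * U (l4 p) * U (l3 p))⁻¹ := by group
    rw [e1, re_comm, e2, re_inner, inv_inv, real_inner_comm]
    unfold stg
    rw [if_neg (l12 p).symm, if_pos rfl]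
  · subst h
    have e1 : plq (update U (l3 p) g) p
        = (U (l1 p) * U (l2 p)) * (g⁻¹ * (U (l4 p))⁻¹) := by
      unfold plq
      rw [update_self, update_of_ne (l13 p), update_of_ne (l23 p), update_of_ne (l34 p).symm]
      group
    have e2 : (g⁻¹ * (U (l4 p))⁻¹) * (U (l1 p) * U (l2 p))
        = g⁻¹ * ((U (l4 p))⁻¹ * U (l1 p) * U (l2 p)) := by group
    rw [e1, re_comm, e2, re_inner, inner_inv, real_inner_comm]
    unfold stg
    rw [if_neg (l13 p).symm, if_neg (l23 p).symm, if_pos rfl]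
  · subst h
    have e1 : plq (update U (l4 p) g) p
        = (U (l1 p) * U (l2 p) * (U (l3 p))⁻¹) * g⁻¹ := by
      unfold plq
      rw [update_self, update_of_ne (l14 p), update_of_ne (l24 p), update_of_ne (l34 p)]
    rw [e1, re_inner, inv_inv]
    unfold stg
    rw [if_neg (l14 p).symm, if_neg (l24 p).symm, if_neg (l34 p).symm]

/-- Lipschitz bound for staples -/
lemma stg_lip {p : Plaq} {e f : Link} (hf : f ≠ e) (he : e ∈ lk p) (U : Link → S3) (k : S3) :
    ‖((stg p e (update U f k) : S3) : ℍ[ℝ]) - ((stg p e U : S3) : ℍ[ℝ])‖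
      ≤ (if f ∈ lk p then 1 else 0) * ‖(k : ℍ[ℝ]) - U f‖ := by
  set b := ‖(k : ℍ[ℝ]) - U f‖ with hb
  have hb0 : 0 ≤ b := norm_nonneg _
  have key : ∀ l : Link, ‖(update U f k l : ℍ[ℝ]) - U l‖ = if l = f then b else 0 := by
    intro l
    by_cases h : l = f
    · subst h; rw [update_self, if_pos rfl]
    · rw [update_of_ne h, if_neg h, sub_self, norm_zero]
  rcases mem_lk.1 he with h | h | h | h
  · subst h
    have h1 : ‖((stg p (l1 p) (update U f k) : S3) : ℍ[ℝ]) - ((stg p (l1 p) U : S3) : ℍ[ℝ])‖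
        ≤ (if l4 p = f then b else 0) + (if l3 p = f then b else 0)
          + (if l2 p = f then b else 0) := by
      unfold stg
      rw [if_pos rfl, if_pos rfl, ← key, ← key, ← key]
      refine (nsub_mul _ _ _ _).trans ?_
      rw [nsub_inv]
      exact add_le_add_left (nsub_mul _ _ _ _) _
    refine h1.trans ?_
    by_cases g2 : l2 p = f
    · have : f ∈ lk p := mem_lk.2 (Or.inr (Or.inl g2.symm))
      rw [if_pos this, if_pos g2, if_neg (fun h => l24 p (g2.trans h.symm)),
        if_neg (fun h => l23 p (g2.trans h.symm))]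
      linarith
    by_cases g3 : l3 p = f
    · have : f ∈ lk p := mem_lk.2 (Or.inr (Or.inr (Or.inl g3.symm)))
      rw [if_pos this, if_neg g2, if_pos g3, if_neg (fun h => l34 p (g3.trans h.symm))]
      linarith
    by_cases g4 : l4 p = f
    · have : f ∈ lk p := mem_lk.2 (Or.inr (Or.inr (Or.inr g4.symm)))
      rw [if_pos this, if_neg g2, if_neg g3, if_pos g4]
      linarith
    rw [if_neg g2, if_neg g3, if_neg g4]
    split_ifs <;> linarith
  · subst h
    have h1 : ‖((stg p (l2 p) (update U f k) : S3) : ℍ[ℝ]) - ((stg p (l2 p) U : S3) : ℍ[ℝ])‖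
        ≤ (if l1 p = f then b else 0) + (if l4 p = f then b else 0)
          + (if l3 p = f then b else 0) := by
      unfold stg
      rw [if_neg (l12 p).symm, if_pos rfl, if_neg (l12 p).symm, if_pos rfl, ← key, ← key, ← key]
      refine (nsub_mul _ _ _ _).trans ?_
      refine add_le_add_left ?_ _
      refine (nsub_mul _ _ _ _).trans ?_
      rw [nsub_inv]
    refine h1.trans ?_
    by_cases g2 : l1 p = f
    · have : f ∈ lk p := mem_lk.2 (Or.inl g2.symm)
      rw [if_pos this, if_pos g2, if_neg (fun h => l14 p (g2.trans h.symm)),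
        if_neg (fun h => l13 p (g2.trans h.symm))]
      linarith
    by_cases g3 : l3 p = f
    · have : f ∈ lk p := mem_lk.2 (Or.inr (Or.inr (Or.inl g3.symm)))
      rw [if_pos this, if_neg g2, if_pos g3, if_neg (fun h => l34 p (g3.trans h.symm))]
      linarith
    by_cases g4 : l4 p = f
    · have : f ∈ lk p := mem_lk.2 (Or.inr (Or.inr (Or.inr g4.symm)))
      rw [if_pos this, if_neg g2, if_neg g3, if_pos g4]
      linarith
    rw [if_neg g2, if_neg g3, if_neg g4]
    split_ifs <;> linarith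
  · subst h
    have h1 : ‖((stg p (l3 p) (update U f k) : S3) : ℍ[ℝ]) - ((stg p (l3 p) U : S3) : ℍ[ℝ])‖
        ≤ (if l4 p = f then b else 0) + (if l1 p = f then b else 0)
          + (if l2 p = f then b else 0) := by
      unfold stg
      rw [if_neg (l13 p).symm, if_neg (l23 p).symm, if_pos rfl, if_neg (l13 p).symm,
        if_neg (l23 p).symm, if_pos rfl, ← key, ← key, ← key]
      refine (nsub_mul _ _ _ _).trans ?_
      refine add_le_add_left ?_ _
      refine (nsub_mul _ _ _ _).trans ?_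
      rw [nsub_inv]
    refine h1.trans ?_
    by_cases g2 : l1 p = f
    · have : f ∈ lk p := mem_lk.2 (Or.inl g2.symm)
      rw [if_pos this, if_pos g2, if_neg (fun h => l14 p (g2.trans h.symm)),
        if_neg (fun h => l12 p (g2.trans h.symm))]
      linarith
    by_cases g3 : l2 p = f
    · have : f ∈ lk p := mem_lk.2 (Or.inr (Or.inl g3.symm))
      rw [if_pos this, if_neg g2, if_pos g3, if_neg (fun h => l24 p (g3.trans h.symm))]
      linarith
    by_cases g4 : l4 p = f
    · have : f ∈ lk p := mem_lk.2 (Or.inr (Or.inr (Or.inr g4.symm)))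
      rw [if_pos this, if_neg g2, if_neg g3, if_pos g4]
      linarith
    rw [if_neg g2, if_neg g3, if_neg g4]
    split_ifs <;> linarith
  · subst h
    have h1 : ‖((stg p (l4 p) (update U f k) : S3) : ℍ[ℝ]) - ((stg p (l4 p) U : S3) : ℍ[ℝ])‖
        ≤ (if l1 p = f then b else 0) + (if l2 p = f then b else 0)
          + (if l3 p = f then b else 0) := by
      unfold stg
      rw [if_neg (l14 p).symm, if_neg (l24 p).symm, if_neg (l34 p).symm, if_neg (l14 p).symm,
        if_neg (l24 p).symm, if_neg (l34 p).symm, ← key, ← key, ← key]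
      refine (nsub_mul _ _ _ _).trans ?_
      rw [nsub_inv]
      exact add_le_add_left (nsub_mul _ _ _ _) _
    refine h1.trans ?_
    by_cases g2 : l1 p = f
    · have : f ∈ lk p := mem_lk.2 (Or.inl g2.symm)
      rw [if_pos this, if_pos g2, if_neg (fun h => l12 p (g2.trans h.symm)),
        if_neg (fun h => l13 p (g2.trans h.symm))]
      linarith
    by_cases g3 : l2 p = f
    · have : f ∈ lk p := mem_lk.2 (Or.inr (Or.inl g3.symm))
      rw [if_pos this, if_neg g2, if_pos g3, if_neg (fun h => l23 p (g3.trans h.symm))]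
      linarith
    by_cases g4 : l3 p = f
    · have : f ∈ lk p := mem_lk.2 (Or.inr (Or.inr (Or.inl g4.symm)))
      rw [if_pos this, if_neg g2, if_neg g3, if_pos g4]
      linarith
    rw [if_neg g2, if_neg g3, if_neg g4]
    split_ifs <;> linarith

lemma plq_update_ne {G : Type} [Group G] {p : Plaq} {e : Link} (he : e ∉ lk p) (U : Link → G) (g : G) :
    plq (update U e g) p = plq U p := by
  rw [mem_lk] at he
  push Not at he
  unfold plq
  rw [update_of_ne he.1.symm, update_of_ne he.2.1.symm, update_of_ne he.2.2.1.symm,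
    update_of_ne he.2.2.2.symm]

/-! ## the gauge -/

/-- the link above `x` is trivial: its direction depends on `x` modulo 2 only -/
def tabl : Fin 2 → Fin 2 → Fin 2 → Fin 2 → Fin 4 :=
  ![![![![0, 1], ![3, 3]], ![![2, 1], ![2, 0]]], ![![![0, 2], ![1, 2]], ![![3, 3], ![1, 0]]]]

/-- parity -/
def par (n : ℤ) : Fin 2 := if n % 2 = 0 then 0 else 1

lemma par_add_one (n : ℤ) : par (n + 1) = par n + 1 := by
  unfold par
  rcases Int.emod_two_eq_zero_or_one n with h | h
  · have : (n + 1) % 2 = 1 := by omega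
    rw [this, h]; decide
  · have : (n + 1) % 2 = 0 := by omega
    rw [this, h]; decide

/-- direction of the trivial link above `x` -/
def DD (x : Site) : Fin 4 := tabl (par (x 0)) (par (x 1)) (par (x 2)) (par (x 3))

/-- table form -/
def DT (c : Fin 4 → Fin 2) : Fin 4 := tabl (c 0) (c 1) (c 2) (c 3)

lemma DD_eq (x : Site) : DD x = DT (fun i => par (x i)) := rfl

lemma DD_add (x : Site) (i : Fin 4) :
    DD (x + un i) = DT (fun j => par (x j) + if j = i then 1 else 0) := by
  rw [DD_eq]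
  congr 1
  funext j
  rw [Pi.add_apply]
  by_cases h : j = i
  · subst h
    rw [if_pos rfl]
    unfold un
    rw [Pi.single_eq_same, par_add_one]
  · rw [if_neg h]
    unfold un
    rw [Pi.single_eq_of_ne h, add_zero, add_zero]

lemma tab_check : ∀ c : Fin 4 → Fin 2, ∀ i j : Fin 4, i < j →
    (i = DT c ∨ j = DT (fun k => c k + if k = i then 1 else 0)
      ∨ i = DT (fun k => c k + if k = j then 1 else 0) ∨ j = DT c) := by
  decide

/-- a link is fixed -/
def Fx (e : Link) : Prop := e.2 = DD e.1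

instance : DecidablePred Fx := fun e => decEq _ _

lemma exists_fixed (p : Plaq) : ∃ e ∈ lk p, Fx e := by
  rcases tab_check (fun k => par (p.1.1 k)) p.1.2.1 p.1.2.2 p.2 with h | h | h | h
  · exact ⟨l1 p, mem_lk.2 (Or.inl rfl), h⟩
  · exact ⟨l2 p, mem_lk.2 (Or.inr (Or.inl rfl)), h.trans (DD_add _ _).symm⟩
  · exact ⟨l3 p, mem_lk.2 (Or.inr (Or.inr (Or.inl rfl))), h.trans (DD_add _ _).symm⟩
  · exact ⟨l4 p, mem_lk.2 (Or.inr (Or.inr (Or.inr rfl))), h⟩

lemma card_unfixed {p : Plaq} {x : Link} (hx : x ∈ lk p) (hf : ¬ Fx x) :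
    (((lk p).filter fun y => ¬ Fx y).erase x).card ≤ 2 := by
  obtain ⟨e, he, hfe⟩ := exists_fixed p
  have hxe : x ≠ e := fun h => hf (h ▸ hfe)
  have h1 : (((lk p).filter fun y => ¬ Fx y).erase x) ⊆ ((lk p).erase e).erase x := by
    intro y hy
    rw [Finset.mem_erase, Finset.mem_filter] at hy
    rw [Finset.mem_erase, Finset.mem_erase]
    exact ⟨hy.1, fun h => hy.2.2 (h ▸ hfe), hy.2.1⟩
  refine (Finset.card_le_card h1).trans ?_
  rw [Finset.card_erase_of_mem (Finset.mem_erase.2 ⟨hxe, hx⟩), Finset.card_erase_of_mem he]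
  have := card_lk p
  omega

end Pool.Agent.V11262.ER
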