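import Pool.Agent.H556R4.SU2f

/-!
# Lattice gauge theory on `ℤ⁴`: fixing one link above every site
-/

set_option autoImplicit false
set_option linter.unusedSectionVars false

noncomputable section

namespace Pool.Agent.V11262.ER

open MeasureTheory Measure Function
open Pool.Agent.H556R4.Dob

/-- sites -/
abbrev Site : Type := Fin 4 → ℤ

/-- links -/
abbrev Link : Type := Site × Fin 4

/-- plaquettes -/
abbrev Plaq : Type := {p : Site × Fin 4 × Fin 4 // p.2.1 < p.2.2}

/-- unit vector -/
abbrev un (i : Fin 4) : Site := Pi.single i 1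

def l1 (p : Plaq) : Link := (p.1.1, p.1.2.1)
def l2 (p : Plaq) : Link := (p.1.1 + un p.1.2.1, p.1.2.2)
def l3 (p : Plaq) : Link := (p.1.1 + un p.1.2.2, p.1.2.1)
def l4 (p : Plaq) : Link := (p.1.1, p.1.2.2)

/-- the links of a plaquette -/
def lk (p : Plaq) : Finset Link := {l1 p, l2 p, l3 p, l4 p}

section Group

variable {G : Type} [Group G]

/-- the plaquette variable -/
def plq (U : Link → G) (p : Plaq) : G := U (l1 p) * U (l2 p) * (U (l3 p))⁻¹ * (U (l4 p))⁻¹

/-- gauge transformations -/
def gau (γ : Site → G) (U : Link → G) : Link → G := fun e => γ e.1 * U e * (γ (e.1 + un e.2))⁻¹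

/-- gauge invariant functions -/
def Inv (Φ : (Link → G) → ℝ) : Prop := ∀ γ U, Φ (gau γ U) = Φ U

/-- functions of the links in `L` -/
def Dep (L : Finset Link) (Φ : (Link → G) → ℝ) : Prop :=
  ∀ U V : Link → G, (∀ e ∈ L, U e = V e) → Φ U = Φ V

lemma plq_gau (γ : Site → G) (U : Link → G) (p : Plaq) :
    plq (gau γ U) p = γ p.1.1 * plq U p * (γ p.1.1)⁻¹ := by
  unfold plq gau l1 l2 l3 l4
  have h : p.1.1 + un p.1.2.1 + un p.1.2.2 = p.1.1 + un p.1.2.2 + un p.1.2.1 := by
    rw [add_right_comm]
  simp only [h]
  group

/-- extension by `1` -/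
def ex (L : Finset Link) (u : L → G) : Link → G := fun e => if h : e ∈ L then u ⟨e, h⟩ else 1

lemma ex_mem (L : Finset Link) (u : L → G) {e : Link} (h : e ∈ L) : ex L u e = u ⟨e, h⟩ := by
  unfold ex; rw [dif_pos h]

/-- the links above the sites of `X`, in the directions `D`, are set equal to `1` -/
def fx (D : Site → Fin 4) (X : Finset Site) (U : Link → G) : Link → G :=
  fun e => if e.1 ∈ X ∧ e.2 = D e.1 then 1 else U e

/-- all links `(x, D x)` are set equal to `1` -/
def fix (D : Site → Fin 4) (U : Link → G) : Link → G := fun e => if e.2 = D e.1 then 1 else U e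

/-- the sum of the coordinates -/
def sm (x : Site) : ℤ := ∑ i, x i

lemma sm_add (x : Site) (i : Fin 4) : sm (x + un i) = sm x + 1 := by
  unfold sm un
  simp [Finset.sum_add_distrib]

lemma add_un_ne (x : Site) (i : Fin 4) : x + un i ≠ x := by
  intro h
  have := sm_add x i
  rw [h] at this
  omega

end Group

section Meas

variable {G : Type} [Group G] [MeasurableSpace G] [MeasurableMul₂ G] [MeasurableInv G]
  (μ : Measure G) [IsProbabilityMeasure μ]

lemma measurable_ex (L : Finset Link) : Measurable (ex L : (L → G) → Link → G) := by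
  rw [measurable_pi_iff]
  intro e
  by_cases h : e ∈ L
  · simp only [ex_mem L _ h]
    exact measurable_pi_apply _
  · have : (fun u : L → G => ex L u e) = fun _ => 1 := by
      funext u
      unfold ex
      rw [dif_neg h]
    rw [this]
    exact measurable_const

lemma measurable_fx (D : Site → Fin 4) (X : Finset Site) :
    Measurable (fx D X : (Link → G) → Link → G) := by
  rw [measurable_pi_iff]
  intro e
  by_cases h : e.1 ∈ X ∧ e.2 = D e.1
  · have : (fun u : Link → G => fx D X u e) = fun _ => 1 := by
      funext u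
      unfold fx
      rw [if_pos h]
    rw [this]
    exact measurable_const
  · have : (fun u : Link → G => fx D X u e) = fun u => u e := by
      funext u
      unfold fx
      rw [if_neg h]
    rw [this]
    exact measurable_pi_apply e

/-- restriction to finitely many links -/
theorem int_ex (L : Finset Link) (Φ : (Link → G) → ℝ) (hm : Measurable Φ) (hd : Dep L Φ) :
    ∫ U, Φ U ∂(infinitePi fun _ : Link => μ) = ∫ u, Φ (ex L u) ∂(Pm μ : Measure (L → G)) := by
  have h1 := infinitePi_map_restrict (μ := fun _ : Link => μ) (I := L)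
  have h2 : ∀ U : Link → G, Φ U = Φ (ex L (L.restrict U)) := by
    intro U
    refine hd _ _ fun e he => ?_
    rw [ex_mem L _ he]
    rfl
  calc ∫ U, Φ U ∂(infinitePi fun _ : Link => μ)
      = ∫ U, Φ (ex L (L.restrict U)) ∂(infinitePi fun _ : Link => μ) := by
        congr 1; funext U; exact h2 U
    _ = ∫ u, Φ (ex L u) ∂((infinitePi fun _ : Link => μ).map L.restrict) := by
        rw [integral_map (Finset.measurable_restrict L).aemeasurable]
        exact (hm.comp (measurable_ex L)).aestronglyMeasurable
    _ = _ := by rw [h1]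

variable [μ.IsMulLeftInvariant] [μ.IsMulRightInvariant]

/-- translation of the links at `x` -/
def tr (L : Finset Link) (x : Site) (g : G) (u : L → G) : L → G := fun e =>
  if e.1.1 = x then g * u e else if e.1.1 + un e.1.2 = x then u e * g⁻¹ else u e

lemma mp_tr (L : Finset Link) (x : Site) (g : G) :
    MeasurePreserving (tr L x g) (Pm μ : Measure (L → G)) (Pm μ) := by
  have h := measurePreserving_pi (fun _ : L => μ) (fun _ : L => μ)
    (f := fun (e : L) (a : G) => if e.1.1 = x then g * a else
      if e.1.1 + un e.1.2 = x then a * g⁻¹ else a) (fun e => by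
        split_ifs
        · exact measurePreserving_mul_left μ g
        · exact measurePreserving_mul_right μ g⁻¹
        · exact MeasurePreserving.id μ)
  exact h

theorem step (D : Site → Fin 4) (L : Finset Link) (X : Finset Site) (x : Site) (hx : x ∉ X)
    (hX : ∀ y ∈ X, sm x ≤ sm y) (Φ : (Link → G) → ℝ) (hm : Measurable Φ) {C : ℝ}
    (hC : ∀ U, |Φ U| ≤ C) (hd : Dep L Φ) (hi : Inv Φ) :
    ∫ u, Φ (fx D X (ex L u)) ∂(Pm μ : Measure (L → G)) =
      ∫ u, Φ (fx D (insert x X) (ex L u)) ∂(Pm μ : Measure (L → G)) := by
  by_cases he : (x, D x) ∈ L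
  swap
  · congr 1
    funext u
    refine hd _ _ fun e hel => ?_
    unfold fx
    by_cases h1 : e.1 = x ∧ e.2 = D x
    · exfalso
      apply he
      have h2 : e = (x, D x) := Prod.ext h1.1 h1.2
      rw [← h2]
      exact hel
    · by_cases h2 : e.1 ∈ X ∧ e.2 = D e.1
      · rw [if_pos h2, if_pos ⟨Finset.mem_insert_of_mem h2.1, h2.2⟩]
      · rw [if_neg h2, if_neg]
        rintro ⟨h3, h4⟩
        rcases Finset.mem_insert.1 h3 with h5 | h5
        · exact h1 ⟨h5, by rw [h4, h5]⟩
        · exact h2 ⟨h5, h4⟩
  set i0 : L := ⟨(x, D x), he⟩ with hi0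
  set φ : (L → G) → ℝ := fun u => Φ (fx D X (ex L u)) with hφ
  have hφm : Measurable φ := (hm.comp (measurable_fx D X)).comp (measurable_ex L)
  have hφb : BM φ := ⟨hφm, C, fun u => hC _⟩
  have hmu : Measurable fun p : (L → G) × G => update p.1 i0 p.2 := measurable_update_pair i0
  have key : ∀ (g : G) (u : L → G),
      φ (update (tr L x g u) i0 g) = Φ (fx D (insert x X) (ex L u)) := by
    intro g u
    rw [hφ]
    simp only
    rw [← hi (fun y => if y = x then g else 1) (fx D (insert x X) (ex L u))]
    refine hd _ _ fun e hel => ?_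
    obtain ⟨y, i⟩ := e
    unfold gau
    simp only
    by_cases hy : y = x
    · subst hy
      rw [if_pos rfl, if_neg (add_un_ne y i), inv_one, mul_one]
      by_cases hii : i = D y
      · have e1 : fx D (insert y X) (ex L u) (y, i) = 1 := by
          unfold fx
          rw [if_pos ⟨Finset.mem_insert_self _ _, hii⟩]
        have e2 : fx D X (ex L (update (tr L y g u) i0 g)) (y, i) = g := by
          unfold fx
          rw [if_neg (fun h => hx h.1), ex_mem L _ hel]
          have : (⟨(y, i), hel⟩ : L) = i0 := by
            rw [hi0]; simp only [hii]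
          rw [this, update_self]
        rw [e1, e2, mul_one]
      · have e1 : fx D (insert y X) (ex L u) (y, i) = u ⟨(y, i), hel⟩ := by
          unfold fx
          rw [if_neg (fun h => hii h.2), ex_mem L _ hel]
        have e2 : fx D X (ex L (update (tr L y g u) i0 g)) (y, i) = g * u ⟨(y, i), hel⟩ := by
          unfold fx
          rw [if_neg (fun h => hx h.1), ex_mem L _ hel, update_of_ne]
          · unfold tr
            rw [if_pos rfl]
          · rw [hi0]
            intro h
            rw [Subtype.mk.injEq, Prod.mk.injEq] at h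
            exact hii h.2
        rw [e1, e2]
    · rw [if_neg hy, one_mul]
      have hne : (⟨(y, i), hel⟩ : L) ≠ i0 := by
        rw [hi0]
        intro h
        rw [Subtype.mk.injEq, Prod.mk.injEq] at h
        exact hy h.1
      by_cases hyx : y + un i = x
      · rw [if_pos hyx]
        have hyX : y ∉ X := by
          intro h
          have h1 := hX y h
          rw [← hyx, sm_add] at h1
          omega
        have e1 : fx D (insert x X) (ex L u) (y, i) = u ⟨(y, i), hel⟩ := by
          unfold fx
          rw [if_neg, ex_mem L _ hel]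
          rintro ⟨h, -⟩
          rcases Finset.mem_insert.1 h with h1 | h1
          · exact hy h1
          · exact hyX h1
        have e2 : fx D X (ex L (update (tr L x g u) i0 g)) (y, i) = u ⟨(y, i), hel⟩ * g⁻¹ := by
          unfold fx
          rw [if_neg (fun h => hyX h.1), ex_mem L _ hel, update_of_ne hne]
          unfold tr
          rw [if_neg hy, if_pos hyx]
        rw [e1, e2]
      · rw [if_neg hyx, inv_one, mul_one]
        by_cases hfix : y ∈ X ∧ i = D y
        · have e1 : fx D (insert x X) (ex L u) (y, i) = 1 := by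
            unfold fx
            rw [if_pos ⟨Finset.mem_insert_of_mem hfix.1, hfix.2⟩]
          have e2 : fx D X (ex L (update (tr L x g u) i0 g)) (y, i) = 1 := by
            unfold fx
            rw [if_pos hfix]
          rw [e1, e2]
        · have e1 : fx D (insert x X) (ex L u) (y, i) = u ⟨(y, i), hel⟩ := by
            unfold fx
            rw [if_neg, ex_mem L _ hel]
            rintro ⟨h, h'⟩
            rcases Finset.mem_insert.1 h with h1 | h1
            · exact hy h1
            · exact hfix ⟨h1, h'⟩
          have e2 : fx D X (ex L (update (tr L x g u) i0 g)) (y, i) = u ⟨(y, i), hel⟩ := by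
            unfold fx
            rw [if_neg hfix, ex_mem L _ hel, update_of_ne hne]
            unfold tr
            rw [if_neg hy, if_neg hyx]
          rw [e1, e2]
  have hin : Integrable (fun p : (L → G) × G => φ (update p.1 i0 p.2))
      ((Pm μ : Measure (L → G)).prod μ) := by
    refine Integrable.of_bound (hφm.comp hmu).aestronglyMeasurable C
      (Filter.Eventually.of_forall fun p => ?_)
    rw [Real.norm_eq_abs]
    exact hC _
  calc ∫ u, φ u ∂(Pm μ : Measure (L → G))
      = ∫ u, ∫ g, φ (update u i0 g) ∂μ ∂(Pm μ : Measure (L → G)) := integral_update μ i0 φ hφb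
    _ = ∫ g, ∫ u, φ (update u i0 g) ∂(Pm μ : Measure (L → G)) ∂μ := integral_integral_swap hin
    _ = ∫ g, ∫ u, φ (update (tr L x g u) i0 g) ∂(Pm μ : Measure (L → G)) ∂μ := by
        congr 1
        funext g
        have hmp := mp_tr μ L x g
        have hmg : Measurable fun u : L → G => φ (update u i0 g) :=
          hφm.comp (hmu.comp (measurable_id.prodMk measurable_const))
        conv_lhs => rw [← hmp.map_eq]
        rw [integral_map hmp.measurable.aemeasurable hmg.aestronglyMeasurable]
    _ = ∫ g, ∫ u, Φ (fx D (insert x X) (ex L u)) ∂(Pm μ : Measure (L → G)) ∂μ := by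
        simp only [key]
    _ = ∫ u, Φ (fx D (insert x X) (ex L u)) ∂(Pm μ : Measure (L → G)) := by
        rw [integral_const]
        simp

theorem fix_all (D : Site → Fin 4) (L : Finset Link) (X : Finset Site) (Φ : (Link → G) → ℝ)
    (hm : Measurable Φ) {C : ℝ} (hC : ∀ U, |Φ U| ≤ C) (hd : Dep L Φ) (hi : Inv Φ) :
    ∫ u, Φ (ex L u) ∂(Pm μ : Measure (L → G)) =
      ∫ u, Φ (fx D X (ex L u)) ∂(Pm μ : Measure (L → G)) := by
  refine Finset.induction_on_min_value sm X ?_ ?_
  · refine integral_congr_ae (Filter.Eventually.of_forall fun u => ?_)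
    simp only
    refine hd _ _ fun e _ => ?_
    unfold fx
    rw [if_neg (fun h => absurd h.1 (Finset.notMem_empty _))]
  · intro a s ha hs ih
    rw [ih, step μ D L s a ha hs Φ hm hC hd hi]

/-- **Gauge fixing.** -/
theorem gauge_fix (D : Site → Fin 4) (L : Finset Link) (Φ : (Link → G) → ℝ)
    (hm : Measurable Φ) {C : ℝ} (hC : ∀ U, |Φ U| ≤ C) (hd : Dep L Φ) (hi : Inv Φ) :
    ∫ U, Φ U ∂(infinitePi fun _ : Link => μ) =
      ∫ u, Φ (fix D (ex L u)) ∂(Pm μ : Measure (L → G)) := by
  rw [int_ex μ L Φ hm hd, fix_all μ D L (L.image Prod.fst) Φ hm hC hd hi]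
  congr 1
  funext u
  refine hd _ _ fun e he => ?_
  unfold fx fix
  have : e.1 ∈ L.image Prod.fst := Finset.mem_image_of_mem _ he
  simp [this]

end Meas

end Pool.Agent.V11262.ER
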