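import Pool.Agent.V11262.ER.Field

/-!
# Influence bounds in the gauge with a trivial link in every plaquette
-/

set_option autoImplicit false
set_option linter.unusedSectionVars false

noncomputable section

namespace Pool.Agent.V11262.ER

open MeasureTheory Measure Function Quaternion
open Pool.Agent.H556R4.Dob Pool.Agent.H556R4.SU2

/-- Wilson weight -/
def wt (β : Plaq → ℝ) (Λ : Finset Plaq) (U : Link → S3) : ℝ :=
  Real.exp (∑ p ∈ Λ, β p * ((plq U p : S3) : ℍ[ℝ]).re)

/-- gauge fixed configuration -/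
def gf (L : Finset Link) (u : L → S3) : Link → S3 := fix DD (ex L u)

lemma gf_fixed {L : Finset Link} (u : L → S3) {e : Link} (h : Fx e) : gf L u e = 1 :=
  if_pos h

lemma gf_unfixed {L : Finset Link} (u : L → S3) (e : L) (h : ¬ Fx e.1) : gf L u e.1 = u e :=
  (if_neg h).trans (ex_mem L u e.2)

lemma gf_out {L : Finset Link} (u : L → S3) {e : Link} (h : e ∉ L) : gf L u e = 1 := by
  by_cases hf : Fx e
  · exact gf_fixed u hf
  · refine (if_neg hf).trans ?_
    unfold ex
    rw [dif_neg h]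

lemma gf_update_fixed {L : Finset Link} (u : L → S3) (y : L) (k : S3) (h : Fx y.1) :
    gf L (update u y k) = gf L u := by
  funext e
  by_cases he : Fx e
  · rw [gf_fixed _ he, gf_fixed _ he]
  · by_cases hel : e ∈ L
    · have hne : (⟨e, hel⟩ : L) ≠ y := fun h' => he (by rw [← h'] at h; exact h)
      rw [gf_unfixed _ ⟨e, hel⟩ he, gf_unfixed _ ⟨e, hel⟩ he, update_of_ne hne]
    · rw [gf_out _ hel, gf_out _ hel]

lemma gf_update_unfixed {L : Finset Link} (u : L → S3) (y : L) (k : S3) (h : ¬ Fx y.1) :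
    gf L (update u y k) = update (gf L u) y.1 k := by
  funext e
  by_cases hey : e = y.1
  · subst hey
    rw [update_self, gf_unfixed _ _ h, update_self]
  · rw [update_of_ne hey]
    by_cases he : Fx e
    · rw [gf_fixed _ he, gf_fixed _ he]
    · by_cases hel : e ∈ L
      · have hne : (⟨e, hel⟩ : L) ≠ y := fun h' => hey (by rw [← h'])
        rw [gf_unfixed _ ⟨e, hel⟩ he, gf_unfixed _ ⟨e, hel⟩ he, update_of_ne hne]
      · rw [gf_out _ hel, gf_out _ hel]

/-- gauge fixed density -/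
def HH (L : Finset Link) (β : Plaq → ℝ) (Λ : Finset Plaq) (u : L → S3) : ℝ := wt β Λ (gf L u)

/-- field at `x` -/
def fl (L : Finset Link) (β : Plaq → ℝ) (Λ : Finset Plaq) (x : L) (u : L → S3) : ℍ[ℝ] :=
  ∑ p ∈ Λ.filter (fun p => x.1 ∈ lk p), β p • ((stg p x.1 (gf L u) : S3) : ℍ[ℝ])

lemma HH_field (L : Finset Link) (β : Plaq → ℝ) (Λ : Finset Plaq) (x : L) (hx : ¬ Fx x.1)
    (u : L → S3) (g : S3) :
    HH L β Λ (update u x g)
      = Real.exp (∑ p ∈ Λ.filter (fun p => x.1 ∉ lk p), β p * ((plq (gf L u) p : S3) : ℍ[ℝ]).re)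
        * Real.exp (inner ℝ (fl L β Λ x u) (g : ℍ[ℝ])) := by
  unfold HH wt
  rw [gf_update_unfixed u x g hx, ← Real.exp_add]
  congr 1
  rw [← Finset.sum_filter_add_sum_filter_not Λ (fun p => x.1 ∈ lk p), add_comm]
  congr 1
  · refine Finset.sum_congr rfl fun p hp => ?_
    rw [plq_update_ne (Finset.mem_filter.1 hp).2]
  · unfold fl
    rw [sum_inner]
    refine Finset.sum_congr rfl fun p hp => ?_
    rw [stg_plq (Finset.mem_filter.1 hp).2, real_inner_smul_left]

/-- coupling between two links -/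
def cpl (β : Plaq → ℝ) (Λ : Finset Plaq) (x y : Link) : ℝ :=
  if Fx x ∨ Fx y then 0 else ∑ p ∈ Λ.filter (fun p => x ∈ lk p ∧ y ∈ lk p), |β p|

lemma cpl_nonneg (β : Plaq → ℝ) (Λ : Finset Plaq) (x y : Link) : 0 ≤ cpl β Λ x y := by
  unfold cpl
  split_ifs
  · exact le_rfl
  · exact Finset.sum_nonneg fun _ _ => abs_nonneg _

variable [MeasurableSpace S3] [BorelSpace S3] (μ : Measure S3) [IsProbabilityMeasure μ]
  [μ.IsHaarMeasure]

lemma HH_infl (L : Finset Link) (β : Plaq → ℝ) (Λ : Finset Plaq) (x y : L) (hxy : y ≠ x) :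
    Infl μ chord (HH L β Λ) x y (Real.sqrt 3 / 6 * cpl β Λ x.1 y.1) := by
  have := right_inv μ
  have := inv_inv' μ
  by_cases hx : Fx x.1
  · have e0 : cpl β Λ x.1 y.1 = 0 := by unfold cpl; rw [if_pos (Or.inl hx)]
    rw [e0]
    refine infl_field μ (fld := fun _ => 0) (c0 := fun u => HH L β Λ u) (B := 0)
      (fun u => Real.exp_pos _) (fun u g => ?_) (fun u k => by simp)
    rw [inner_zero_left, Real.exp_zero, mul_one]
    unfold HH
    rw [gf_update_fixed u x g hx]
  · refine infl_field μ (fld := fun u => fl L β Λ x u) (c0 := fun u =>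
      Real.exp (∑ p ∈ Λ.filter (fun p => x.1 ∉ lk p), β p * ((plq (gf L u) p : S3) : ℍ[ℝ]).re))
      (fun u => Real.exp_pos _) (fun u g => HH_field L β Λ x hx u g) (fun u k => ?_)
    by_cases hy : Fx y.1
    · have e0 : cpl β Λ x.1 y.1 = 0 := by unfold cpl; rw [if_pos (Or.inr hy)]
      rw [e0]
      unfold fl
      rw [gf_update_fixed u y k hy, sub_self, norm_zero, zero_mul]
    · have hne : y.1 ≠ x.1 := fun h => hxy (Subtype.ext h)
      unfold fl cpl
      rw [if_neg (by rintro (h | h) <;> contradiction), gf_update_unfixed u y k hy,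
        ← Finset.sum_sub_distrib]
      refine (norm_sum_le _ _).trans ?_
      have h1 : ∀ p ∈ Λ.filter (fun p => x.1 ∈ lk p),
          ‖β p • ((stg p x.1 (update (gf L u) y.1 k) : S3) : ℍ[ℝ])
            - β p • ((stg p x.1 (gf L u) : S3) : ℍ[ℝ])‖
          ≤ (if y.1 ∈ lk p then |β p| else 0) * ‖(k : ℍ[ℝ]) - u y‖ := by
        intro p hp
        rw [← smul_sub, norm_smul, Real.norm_eq_abs]
        have h2 := stg_lip hne (Finset.mem_filter.1 hp).2 (gf L u) k
        rw [gf_unfixed u y hy] at h2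
        refine (mul_le_mul_of_nonneg_left h2 (abs_nonneg _)).trans (le_of_eq ?_)
        split_ifs <;> ring
      refine (Finset.sum_le_sum h1).trans (le_of_eq ?_)
      rw [← Finset.sum_mul, ← Finset.sum_filter, Finset.filter_filter]

/-- the row sums -/
lemma row (β : Plaq → ℝ) (Λ : Finset Plaq) (L : Finset Link) (x : L) (T : Finset L)
    (w : Link → ℝ) (M : ℝ) (hM : 0 ≤ M)
    (hw : ∀ p ∈ Λ, x.1 ∈ lk p → ∀ y ∈ lk p, w y ≤ M) {s : ℝ}
    (hs : ∑ p ∈ Λ.filter (fun p => x.1 ∈ lk p), |β p| ≤ s) (hxT : x ∉ T) :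
    ∑ y ∈ T, cpl β Λ x.1 y.1 * w y.1 ≤ 2 * s * M := by
  by_cases hx : Fx x.1
  · have : ∑ y ∈ T, cpl β Λ x.1 y.1 * w y.1 = 0 := by
      refine Finset.sum_eq_zero fun y _ => ?_
      unfold cpl
      rw [if_pos (Or.inl hx), zero_mul]
    rw [this]
    have : 0 ≤ s := le_trans (Finset.sum_nonneg fun _ _ => abs_nonneg _) hs
    positivity
  have h1 : ∀ y ∈ T, cpl β Λ x.1 y.1 * w y.1
      ≤ ∑ p ∈ Λ.filter (fun p => x.1 ∈ lk p), |β p| * (if ¬ Fx y.1 ∧ y.1 ∈ lk p then M else 0) := by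
    intro y hy
    unfold cpl
    by_cases hfy : Fx y.1
    · rw [if_pos (Or.inr hfy), zero_mul]
      refine Finset.sum_nonneg fun p _ => ?_
      split_ifs <;> positivity
    · rw [if_neg (by rintro (h | h) <;> contradiction), Finset.sum_mul, ← Finset.filter_filter,
        Finset.sum_filter]
      refine Finset.sum_le_sum fun p hp => ?_
      rw [Finset.mem_filter] at hp
      by_cases hyp : y.1 ∈ lk p
      · rw [if_pos hyp, if_pos ⟨hfy, hyp⟩]
        exact mul_le_mul_of_nonneg_left (hw p hp.1 hp.2 _ hyp) (abs_nonneg _)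
      · rw [if_neg hyp]
        split_ifs <;> positivity
  refine (Finset.sum_le_sum h1).trans ?_
  rw [Finset.sum_comm]
  have h2 : ∀ p ∈ Λ.filter (fun p => x.1 ∈ lk p),
      ∑ y ∈ T, |β p| * (if ¬ Fx y.1 ∧ y.1 ∈ lk p then M else 0) ≤ |β p| * (2 * M) := by
    intro p hp
    rw [← Finset.mul_sum]
    refine mul_le_mul_of_nonneg_left ?_ (abs_nonneg _)
    rw [← Finset.sum_filter, Finset.sum_const, nsmul_eq_mul]
    refine mul_le_mul_of_nonneg_right ?_ hM
    have h3 : ((T.filter fun y : L => ¬ Fx y.1 ∧ y.1 ∈ lk p).map (Embedding.subtype _))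
        ⊆ ((lk p).filter fun y => ¬ Fx y).erase x.1 := by
      intro z hz
      rw [Finset.mem_map] at hz
      obtain ⟨y, hy, rfl⟩ := hz
      rw [Finset.mem_filter] at hy
      rw [Finset.mem_erase, Finset.mem_filter]
      refine ⟨fun h => hxT ?_, hy.2.2, hy.2.1⟩
      have : y = x := Subtype.ext h
      rw [← this]
      exact hy.1
    have h4 := Finset.card_le_card h3
    rw [Finset.card_map] at h4
    have h5 := h4.trans (card_unfixed (Finset.mem_filter.1 hp).2 hx)
    exact_mod_cast h5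
  refine (Finset.sum_le_sum h2).trans ?_
  rw [← Finset.sum_mul]
  have := mul_le_mul_of_nonneg_right hs (by positivity : 0 ≤ 2 * M)
  linarith

end Pool.Agent.V11262.ER
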