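import Pool.Agent.V11262.ER.FV

/-!
# The infinite-volume state and its mass gap
-/

set_option autoImplicit false
set_option linter.unusedSectionVars false

noncomputable section

namespace Pool.Agent.V11262.ER

open MeasureTheory Measure Function Quaternion Filter Topology
open Pool.Agent.H556R4.Dob Pool.Agent.H556R4.SU2

/-- the plaquettes with base point in a box -/
def LB (n : ℕ) : Finset Plaq :=
  Finset.subtype (fun p : Site × Fin 4 × Fin 4 => p.2.1 < p.2.2)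
    ((Fintype.piFinset fun _ => Finset.Ico (-(n : ℤ)) n) ×ˢ Finset.univ)

lemma mem_LB {n : ℕ} {p : Plaq} : p ∈ LB n ↔ ∀ κ, -(n : ℤ) ≤ p.1.1 κ ∧ p.1.1 κ < n := by
  simp [LB, Finset.mem_subtype, Fintype.mem_piFinset, Finset.mem_Ico]

lemma LB_mono {n n' : ℕ} (h : n ≤ n') : LB n ⊆ LB n' := by
  intro p hp
  rw [mem_LB] at hp ⊢
  intro κ
  have := hp κ
  constructor <;> omega

lemma exists_LB (Λ : Finset Plaq) : ∃ n : ℕ, Λ ⊆ LB n := by
  refine ⟨1 + ∑ p ∈ Λ, ∑ κ, (p.1.1 κ).natAbs, fun p hp => ?_⟩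
  rw [mem_LB]
  intro κ
  have h1 : (p.1.1 κ).natAbs ≤ ∑ κ, (p.1.1 κ).natAbs :=
    Finset.single_le_sum (f := fun κ => (p.1.1 κ).natAbs) (fun _ _ => Nat.zero_le _)
      (Finset.mem_univ κ)
  have h2 : ∑ κ, (p.1.1 κ).natAbs ≤ ∑ p ∈ Λ, ∑ κ, (p.1.1 κ).natAbs :=
    Finset.single_le_sum (f := fun p : Plaq => ∑ κ, (p.1.1 κ).natAbs)
      (fun _ _ => Nat.zero_le _) hp
  constructor <;> omega

/-- `D` is at most the distance of `A` and `B` -/
def Apart (D : ℕ) (A B : Finset Link) : Prop := ∀ e ∈ A, ∀ f ∈ B, (D : ℝ) ≤ dist e.1 f.1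

lemma far_LB (A : Finset Link) : ∃ M : ℕ, ∀ n : ℕ, ∀ p, p ∉ LB n → Apart (n - M) A (lk p) := by
  refine ⟨1 + ∑ e ∈ A, ∑ κ, (e.1 κ).natAbs, fun n p hp e he f hf => ?_⟩
  rw [mem_LB] at hp
  push Not at hp
  obtain ⟨κ, hκ⟩ := hp
  have h1 : (e.1 κ).natAbs ≤ ∑ κ, (e.1 κ).natAbs :=
    Finset.single_le_sum (f := fun κ => (e.1 κ).natAbs) (fun _ _ => Nat.zero_le _)
      (Finset.mem_univ κ)
  have h2 : ∑ κ, (e.1 κ).natAbs ≤ ∑ e ∈ A, ∑ κ, (e.1 κ).natAbs :=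
    Finset.single_le_sum (f := fun e : Link => ∑ κ, (e.1 κ).natAbs)
      (fun _ _ => Nat.zero_le _) he
  have h3 := base_bds hf κ
  refine le_trans ?_ (dist_le_pi_dist e.1 f.1 κ)
  rw [Int.dist_eq]
  have h4 : ((n - (1 + ∑ e ∈ A, ∑ κ, (e.1 κ).natAbs) : ℕ) : ℤ) ≤ |e.1 κ - f.1 κ| := by
    rw [Int.abs_eq_natAbs]
    generalize (∑ e ∈ A, ∑ κ, (e.1 κ).natAbs) = T at h2 ⊢
    generalize (∑ κ, (e.1 κ).natAbs) = T' at h1 h2
    omega
  exact_mod_cast h4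

lemma Lip.mul {K K' : ℝ} (hK : 0 ≤ K) (hK' : 0 ≤ K') {A B : Finset Link}
    {F h : (Link → S3) → ℝ} (hF : Lip K A F) (hh : Lip K' B h) :
    ∃ K'' : ℝ, 0 ≤ K'' ∧ Lip K'' (A ∪ B) fun U => F U * h U := by
  set a := |F 1| + K * (A.card * 2) with ha
  set b := |h 1| + K' * (B.card * 2) with hb
  have ha0 : 0 ≤ a := by positivity
  have hb0 : 0 ≤ b := by positivity
  refine ⟨a * K' + b * K, by positivity, fun U V => ?_⟩
  have h1 := hF.bdd hK U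
  have h2 := hh.bdd hK' V
  have h3 := hF U V
  have h4 := hh U V
  have h5 : ∑ e ∈ A, ‖(U e : ℍ[ℝ]) - V e‖ ≤ ∑ e ∈ A ∪ B, ‖(U e : ℍ[ℝ]) - V e‖ :=
    Finset.sum_le_sum_of_subset_of_nonneg Finset.subset_union_left fun _ _ _ => norm_nonneg _
  have h6 : ∑ e ∈ B, ‖(U e : ℍ[ℝ]) - V e‖ ≤ ∑ e ∈ A ∪ B, ‖(U e : ℍ[ℝ]) - V e‖ :=
    Finset.sum_le_sum_of_subset_of_nonneg Finset.subset_union_right fun _ _ _ => norm_nonneg _
  set X := ∑ e ∈ A ∪ B, ‖(U e : ℍ[ℝ]) - V e‖ with hX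
  have hX0 : 0 ≤ X := Finset.sum_nonneg fun _ _ => norm_nonneg _
  have e1 : F U * h U - F V * h V = F U * (h U - h V) + (F U - F V) * h V := by ring
  have h7 : |F U| * |h U - h V| ≤ a * (K' * X) :=
    mul_le_mul h1 (h4.trans (mul_le_mul_of_nonneg_left h6 hK')) (abs_nonneg _) ha0
  have h8 : |F U - F V| * |h V| ≤ (K * X) * b :=
    mul_le_mul (h3.trans (mul_le_mul_of_nonneg_left h5 hK)) h2 (abs_nonneg _) (by positivity)
  show |F U * h U - F V * h V| ≤ _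
  rw [e1]
  refine (abs_add_le _ _).trans ?_
  rw [abs_mul, abs_mul]
  nlinarith

lemma Lip.abs {K : ℝ} {B : Finset Link} {h : (Link → S3) → ℝ} (hh : Lip K B h) :
    Lip K B fun U => |h U| :=
  fun U V => (abs_abs_sub_abs_le_abs_sub _ _).trans (hh U V)

lemma Inv.mul' {F h : (Link → S3) → ℝ} (hF : Inv F) (hh : Inv h) : Inv fun U => F U * h U := by
  intro γ U
  show F (gau γ U) * h (gau γ U) = F U * h U
  rw [hF, hh]

lemma Inv.abs' {h : (Link → S3) → ℝ} (hh : Inv h) : Inv fun U => |h U| := by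
  intro γ U
  show |h (gau γ U)| = |h U|
  rw [hh]

section

variable [MeasurableSpace S3] [BorelSpace S3] (μ : Measure S3) [IsProbabilityMeasure μ]
  [μ.IsHaarMeasure]

/-- expectations in finite volume -/
def exq (β : Plaq → ℝ) (Λ : Finset Plaq) (F : (Link → S3) → ℝ) : ℝ :=
  (∫ U, F U * wt β Λ U ∂(hm μ)) / ∫ U, wt β Λ U ∂(hm μ)

instance : IsProbabilityMeasure (hm μ) := by unfold hm; infer_instance

lemma int_wt_pos (β : Plaq → ℝ) (Λ : Finset Plaq) : 0 < ∫ U, wt β Λ U ∂(hm μ) := by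
  obtain ⟨c, hc⟩ := (wt_good β Λ).bdd
  exact integral_pos_of_lb _ ⟨(wt_good β Λ).meas, c, hc⟩ (Real.exp_pos (-∑ p ∈ Λ, |β p|))
    fun U => (wt_bds β Λ U).1

variable {s : ℝ} (hs0 : 0 < s) (hs : s < Real.sqrt 3) (β : Plaq → ℝ)
    (hβ : ∀ e : Link, ∀ T : Finset Plaq, (∀ p ∈ T, e ∈ lk p) → ∑ p ∈ T, |β p| ≤ s)
    {A : Finset Link} {K : ℝ} (hK : 0 ≤ K) {F : (Link → S3) → ℝ} (hF : Lip K A F) (hi : Inv F)

include hs0 hs hβ hK hF hi

theorem cov_fin (Λ : Finset Plaq) {B : Finset Link} {h : (Link → S3) → ℝ} (hh : Good B h) {D : ℕ}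
    (hAB : Apart D A B) :
    |exq μ β Λ (fun U => F U * h U) - exq μ β Λ F * exq μ β Λ h|
      ≤ 2 * K * A.card * (s / Real.sqrt 3) ^ D * exq μ β Λ fun U => |h U| := by
  have h1 := fv μ hs0 hs β Λ (fun e => hβ e _ fun p hp => (Finset.mem_filter.1 hp).2) A B D hAB hK
    hF hi hh
  have hZ := int_wt_pos μ β Λ
  unfold exq
  set Z := ∫ U, wt β Λ U ∂(hm μ) with hZd
  have e1 : (∫ U, F U * h U * wt β Λ U ∂(hm μ)) / Z
      - (∫ U, F U * wt β Λ U ∂(hm μ)) / Z * ((∫ U, h U * wt β Λ U ∂(hm μ)) / Z)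
      = ((∫ U, F U * h U * wt β Λ U ∂(hm μ)) * Z
        - (∫ U, F U * wt β Λ U ∂(hm μ)) * ∫ U, h U * wt β Λ U ∂(hm μ)) / Z ^ 2 := by
    field_simp
  rw [e1, abs_div, abs_of_pos (by positivity : 0 < Z ^ 2), div_le_iff₀ (by positivity)]
  refine h1.trans (le_of_eq ?_)
  field_simp

theorem far (Λ Λ' : Finset Plaq) (hΛ : Λ ⊆ Λ') {D : ℕ}
    (hD : ∀ p, p ∉ Λ → Apart D A (lk p)) :
    |exq μ β Λ' F - exq μ β Λ F| ≤ 2 * K * A.card * (s / Real.sqrt 3) ^ D := by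
  set h : (Link → S3) → ℝ := wt β (Λ' \ Λ) with hh
  have hw : ∀ U, wt β Λ' U = h U * wt β Λ U := by
    intro U
    rw [hh]
    unfold wt
    rw [← Real.exp_add, Finset.sum_sdiff hΛ]
  have h1 := cov_fin μ hs0 hs β hβ hK hF hi Λ (wt_good β (Λ' \ Λ)) (D := D) (by
    intro e he f hf
    rw [Finset.mem_biUnion] at hf
    obtain ⟨p, hp, hfp⟩ := hf
    exact hD p (Finset.mem_sdiff.1 hp).2 e he f hfp)
  have habs : (fun U => |wt β (Λ' \ Λ) U|) = wt β (Λ' \ Λ) := by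
    funext U
    exact abs_of_pos (wt_pos _ _ _)
  rw [habs] at h1
  have hZ := int_wt_pos μ β Λ
  have hZ' := int_wt_pos μ β Λ'
  have hE : 0 < exq μ β Λ h := by
    unfold exq
    refine div_pos ?_ hZ
    simp only [← hw]
    exact hZ'
  have e2 : exq μ β Λ' F = exq μ β Λ (fun U => F U * h U) / exq μ β Λ h := by
    unfold exq
    simp only [mul_assoc, ← hw]
    rw [div_div_div_cancel_right₀ hZ.ne']
  rw [e2]
  have e3 : exq μ β Λ (fun U => F U * h U) / exq μ β Λ h - exq μ β Λ F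
      = (exq μ β Λ (fun U => F U * h U) - exq μ β Λ F * exq μ β Λ h) / exq μ β Λ h := by
    field_simp
  rw [e3, abs_div, abs_of_pos hE, div_le_iff₀ hE]
  exact h1

theorem lim : Tendsto (fun n => exq μ β (LB n) F) atTop
    (𝓝 (limUnder atTop fun n => exq μ β (LB n) F)) := by
  obtain ⟨M, hM⟩ := far_LB A
  have h3 : 0 < Real.sqrt 3 := Real.sqrt_pos.2 (by norm_num)
  refine CauchySeq.tendsto_limUnder ?_
  refine cauchySeq_of_le_tendsto_0
    (fun n => 2 * K * A.card * (s / Real.sqrt 3) ^ (n - M) * 2) ?_ ?_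
  · intro n n' N hn hn'
    have h1 := far μ hs0 hs β hβ hK hF hi _ _ (LB_mono hn) (fun p hp => hM N p hp)
    have h2 := far μ hs0 hs β hβ hK hF hi _ _ (LB_mono hn') (fun p hp => hM N p hp)
    rw [Real.dist_eq]
    rw [abs_le] at h1 h2 ⊢
    constructor <;> linarith [h1.1, h1.2, h2.1, h2.2]
  · have h1 : Tendsto (fun n : ℕ => (s / Real.sqrt 3) ^ n) atTop (𝓝 0) :=
      tendsto_pow_atTop_nhds_zero_of_lt_one (by positivity) (by rw [div_lt_one h3]; exact hs)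
    have h2 : Tendsto (fun n : ℕ => n - M) atTop atTop := tendsto_sub_atTop_nat M
    have h4 := ((h1.comp h2).const_mul (2 * K * A.card)).mul_const 2
    simpa using h4

theorem state_bd (Λ : Finset Plaq) {D : ℕ} (hD : ∀ p, p ∉ Λ → Apart D A (lk p)) :
    |exq μ β Λ F - limUnder atTop (fun n => exq μ β (LB n) F)|
      ≤ 2 * K * A.card * (s / Real.sqrt 3) ^ D := by
  have h1 := ((lim μ hs0 hs β hβ hK hF hi).const_sub (exq μ β Λ F)).abs
  obtain ⟨n0, hn0⟩ := exists_LB Λ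
  refine le_of_tendsto h1 (eventually_atTop.2 ⟨n0, fun n hn => ?_⟩)
  rw [abs_sub_comm]
  exact far μ hs0 hs β hβ hK hF hi _ _ (hn0.trans (LB_mono hn)) hD

end

/-- **Mass gap.** -/
theorem main [MeasurableSpace S3] [BorelSpace S3] (μ : Measure S3) [IsProbabilityMeasure μ]
    [μ.IsHaarMeasure] {s : ℝ} (hs0 : 0 < s) (hs : s < Real.sqrt 3) (β : Plaq → ℝ)
    (hβ : ∀ e : Link, ∀ T : Finset Plaq, (∀ p ∈ T, e ∈ lk p) → ∑ p ∈ T, |β p| ≤ s) :
    ∃ state : ((Link → S3) → ℝ) → ℝ,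
      (∀ (K : ℝ) (A : Finset Link) (F : (Link → S3) → ℝ), 0 ≤ K → Lip K A F → Inv F →
        ∀ (Λ : Finset Plaq) (D : ℕ), (∀ p, p ∉ Λ → Apart D A (lk p)) →
          |exq μ β Λ F - state F| ≤ 2 * K * A.card * (s / Real.sqrt 3) ^ D) ∧
      ∀ (K : ℝ) (A B : Finset Link) (F h : (Link → S3) → ℝ) (D : ℕ), 0 ≤ K → Lip K A F → Inv F →
        Inv h → Apart D A B →
        ((Measurable h → (∃ C, ∀ U, |h U| ≤ C) → Dep B h → ∀ Λ : Finset Plaq,
          |exq μ β Λ (fun U => F U * h U) - exq μ β Λ F * exq μ β Λ h|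
            ≤ 2 * K * A.card * (s / Real.sqrt 3) ^ D * exq μ β Λ fun U => |h U|) ∧
        ∀ K' : ℝ, 0 ≤ K' → Lip K' B h →
          |state (fun U => F U * h U) - state F * state h|
            ≤ 2 * K * A.card * (s / Real.sqrt 3) ^ D * state fun U => |h U|) := by
  refine ⟨fun F => limUnder atTop fun n => exq μ β (LB n) F, ?_, ?_⟩
  · intro K A F hK hF hi Λ D hD
    exact state_bd μ hs0 hs β hβ hK hF hi Λ hD
  · intro K A B F h D hK hF hi hhi hAB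
    refine ⟨fun hm hb hd Λ => cov_fin μ hs0 hs β hβ hK hF hi Λ ⟨hm, hb, hd, hhi⟩ hAB, ?_⟩
    intro K' hK' hh
    obtain ⟨K'', hK'', hFh⟩ := hF.mul hK hK' hh
    have l1 := lim μ hs0 hs β hβ hK hF hi
    have l2 := lim μ hs0 hs β hβ hK' hh hhi
    have l3 := lim μ hs0 hs β hβ hK'' hFh (hi.mul' hhi)
    have l4 := lim μ hs0 hs β hβ hK' hh.abs hhi.abs'
    refine le_of_tendsto_of_tendsto' ((l3.sub (l1.mul l2)).abs)
      (l4.const_mul (2 * K * A.card * (s / Real.sqrt 3) ^ D)) fun n => ?_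
    exact cov_fin μ hs0 hs β hβ hK hF hi (LB n) (hh.good hK' hhi) hAB

end Pool.Agent.V11262.ER
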